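import Pool.Agent.H78.TT.Mult
import Pool.Agent.H49.Cyc.Final

/-!
# The choice of the multiple
-/

open Module Matrix

universe u

namespace Pool.Agent.H20.SX

open Pool.Agent.H72.SB Pool.Agent.H49.Cyc Pool.Agent.H78.TT

variable {k : Type u} [Field k] {n : ℕ}

theorem ne_zero_of_finrank {A : CSA.{u, u} k} (hA : finrank k A = n ^ 2) : n ≠ 0 := by
  rintro rfl
  have h0 : 0 < finrank k A := Module.finrank_pos
  rw [hA] at h0
  simp at h0

/-- `n [A] = 0`. -/
theorem isMultiple_n [Infinite k] {A : CSA.{u, u} k} (hA : finrank k A = n ^ 2) :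
    IsMultiple A (n : ℤ) (kCSA k) := by
  have hn : n ≠ 0 := ne_zero_of_finrank hA
  have : NeZero n := ⟨hn⟩
  obtain ⟨θ, v, h, ⟨e⟩⟩ := exists_dat' (Ω := AlgebraicClosure k) hA
  have h1 : IsMultiple A (n : ℤ) (AC h (n : ℤ)) := isMultiple_AC h e n
  obtain ⟨f⟩ := period_AA h 0
  obtain ⟨f0⟩ := zero_AA h
  rw [zero_add] at f
  have f' : AC h (n : ℤ) ≃ₐ[k] Matrix (Fin n) (Fin n) (kCSA k) :=
    ((eqAC h (n : ℤ)).trans f).trans f0
  exact .equiv _ _ _ h1 (Pool.Agent.H49.GSB.brauer_of_matrix (D := kCSA k) hn f').symm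

/-- A multiple prime to `n`. -/
theorem exists_mult_aux [Infinite k] {A B : CSA.{u, u} k} (hA : finrank k A = n ^ 2) {i j : ℤ}
    (hAB : IsMultiple A i B) (hBA : IsMultiple B j A) {g : ℕ} (hg : g ∣ n)
    (hig : IsCoprime i (g : ℤ)) :
    ∃ r : ℕ, r.Coprime n ∧ (g : ℤ) ∣ (r : ℤ) - i ∧ IsMultiple A (r : ℤ) B := by
  have hn : n ≠ 0 := ne_zero_of_finrank hA
  have hx : IsMultiple A (i * j + -1) (kCSA k) := (hAB.trans hBA).sub_one
  have h1 : IsCoprime i (g * (i * j + -1)) := by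
    refine IsCoprime.mul_right hig ⟨j, -1, ?_⟩
    ring
  obtain ⟨t, ht⟩ := exists_coprime_shift h1 hn
  have h2 : IsMultiple A (i + (t * g) * (i * j + -1)) B := hAB.add (hx.smul _)
  obtain ⟨i', hi'⟩ : ∃ i', i + (t * g) * (i * j + -1) = i' := ⟨_, rfl⟩
  rw [hi'] at h2
  have h3 : i + t * (g * (i * j + -1)) = i' := by rw [← hi']; ring
  rw [h3] at ht
  have hn' : (0 : ℤ) < n := by positivity
  let r : ℕ := (i' % n).toNat
  have hr : (r : ℤ) = i' % n := Int.toNat_of_nonneg (Int.emod_nonneg _ hn'.ne')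
  have hdiv := Int.emod_add_mul_ediv i' n
  refine ⟨r, ?_, ?_, ?_⟩
  · rw [← Nat.isCoprime_iff_coprime, hr]
    have h4 : i' % n = i' + n * (-(i' / n)) := by linarith
    rw [h4]
    exact IsCoprime.add_mul_left_left_iff.2 ht
  · have h4 : (r : ℤ) - i = g * (t * (i * j + -1)) + n * (-(i' / n)) := by
      rw [hr]
      have : i' % n = i' - n * (i' / n) := by linarith
      rw [this, ← hi']
      ring
    rw [h4]
    refine dvd_add (Dvd.intro _ rfl) (Dvd.dvd.mul_right ?_ _)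
    exact_mod_cast hg
  · have h4 : IsMultiple A (i' + (-(i' / n)) * n) B := h2.add ((isMultiple_n hA).smul _)
    rw [hr]
    rwa [show i' % n = i' + (-(i' / n)) * n by linarith]

/-- The multiple can be chosen prime to `n`. -/
theorem exists_mult [Infinite k] {A B : CSA.{u, u} k} (hA : finrank k A = n ^ 2) {i j : ℤ}
    (hAB : IsMultiple A i B) (hBA : IsMultiple B j A) {g : ℕ} (hg : g ∣ n)
    (h : (g = 1 ∨ g = 2 ∨ g = 3 ∨ g = 4 ∨ g = 6) ∨ (g : ℤ) ∣ i - 1 ∨ (g : ℤ) ∣ i + 1) :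
    ∃ r : ℕ, r.Coprime n ∧ IsMultiple A (r : ℤ) B ∧
      ((g : ℤ) ∣ (r : ℤ) - 1 ∨ (g : ℤ) ∣ (r : ℤ) + 1) := by
  rcases h with h | h
  · obtain ⟨r, hr, -, h2⟩ := exists_mult_aux hA hAB hBA (one_dvd n)
      (by rw [Nat.cast_one]; exact isCoprime_one_right)
    refine ⟨r, hr, h2, ?_⟩
    have hrg : r.Coprime g := hr.coprime_dvd_right hg
    by_cases hr0 : r = 0
    · subst hr0
      rw [Nat.coprime_zero_left] at hrg
      rw [hrg]
      left
      simp
    · rcases dvd_of_small hrg hr0 h with h3 | h3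
      · left
        have := Int.natCast_dvd_natCast.2 h3
        rwa [Nat.cast_sub (by omega), Nat.cast_one] at this
      · right
        exact_mod_cast h3
  · obtain ⟨r, hr, h1, h2⟩ := exists_mult_aux hA hAB hBA hg (coprime_of_dvd h)
    refine ⟨r, hr, h2, ?_⟩
    rcases h with h | h
    · left
      have := dvd_add h1 h
      rwa [show (r : ℤ) - i + (i - 1) = r - 1 by ring] at this
    · right
      have := dvd_add h1 h
      rwa [show (r : ℤ) - i + (i + 1) = r + 1 by ring] at this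

end Pool.Agent.H20.SX
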