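import Pool.Agent.H72.TW.Defs

/-!
# The tower of `M_r(C)`

`θ : Fin d → Ω` has a tower of cyclic layers. The roots `θ' (s, e) = κ s + θ e`, `s < r`, have one more
layer, with the shift `(s, e) ↦ (s + 1, e)` and the class function `κ s`; the other layers are
`κ s + c e`, with the shift `(s, S e)`.

A function `F` on `Fin r × Fin d` such that all `F (s, ·)` are rational for `θ` is rational for `θ'`:
with `f (T) = T ^ d - ∑ b, c b T ^ b` of `Pol k θ` the function `∏_(s' ≠ s) f (θ' - κ s')` is zero
outside of the block `s` and not zero in the block (the `κ s + θ e` are distinct), so the indicator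
function of the block is rational (`IsR.inv0`). `B` contains `0` and the finitely many differences of
values of `θ` and of the class functions of the tower.
-/

open Module

open scoped Fin.NatCast Fin.CommRing

namespace Pool.Agent.H20.SX

open Pool.Agent.H78.TT Pool.Agent.H72.TW

variable {k Ω : Type*} [Field k] [Field Ω] [Algebra k Ω] {n d : ℕ}

/-- Substitution of rational functions in a polynomial. -/
private theorem isR_aeval {θ : Fin n → Ω} {K : IntermediateField k Ω} {ι ι' : Type*}
    {G : ι → (ι' → Fin n) → Ω} (hG : ∀ a, IsR θ K ι' (G a)) (P : MvPolynomial ι K) :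
    IsR θ K ι' (fun x => MvPolynomial.aeval (fun a => G a x) P) := by
  induction P using MvPolynomial.induction_on with
  | C c => exact (isR_const (c : Ω) c.2).congr fun x => by rw [MvPolynomial.aeval_C]; rfl
  | add p q hp hq => exact (hp.add hq).congr fun x => by rw [map_add]
  | mul_X p i hp => exact (hp.mul (hG i)).congr fun x => by rw [map_mul, MvPolynomial.aeval_X]

/-- The value of the monic polynomial with the coefficients `-c b` at `y`. -/
def fv (c : Fin d → k) (y : Ω) : Ω := y ^ d - ∑ b : Fin d, algebraMap k Ω (c b) * y ^ (b : ℕ)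

theorem fv_finite (c : Fin d → k) : {y : Ω | fv c y = 0}.Finite := by
  have hm : (Polynomial.X ^ d - ∑ b : Fin d, Polynomial.C (algebraMap k Ω (c b)) *
      Polynomial.X ^ (b : ℕ)).Monic :=
    Polynomial.monic_X_pow_sub (Polynomial.degree_sum_fin_lt _)
  refine (Polynomial.finite_setOfPred_isRoot hm.ne_zero).subset fun y hy => ?_
  have h : fv c y = 0 := hy
  simp only [Set.mem_ofPred_eq, Polynomial.IsRoot.def, Polynomial.eval_sub, Polynomial.eval_pow,
    Polynomial.eval_X, Polynomial.eval_finsetSum, Polynomial.eval_mul, Polynomial.eval_C]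
  exact h

/-- The function of the blocks. -/
theorem block {θ : Fin d → Ω} {c : Fin d → k}
    (hc : ∀ e, fv c (θ e) = 0) {r : ℕ} {κ : Fin r → k} (ε : Fin n ≃ Fin r × Fin d)
    (hκ : ∀ s s', s ≠ s' → ∀ e y, fv c y = 0 →
      algebraMap k Ω (κ s) - algebraMap k Ω (κ s') ≠ y - θ e)
    (hp' : Pol k (fun j => algebraMap k Ω (κ (ε j).1) + θ (ε j).2))
    {F : Fin r → Fin d → Ω} (hF : ∀ s, R1 θ (⊥ : IntermediateField k Ω) (F s)) :
    R1 (fun j => algebraMap k Ω (κ (ε j).1) + θ (ε j).2) (⊥ : IntermediateField k Ω)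
      (fun j => F (ε j).1 (ε j).2) := by
  classical
  set θ' : Fin n → Ω := fun j => algebraMap k Ω (κ (ε j).1) + θ (ε j).2 with hθ'
  have hsub : ∀ s, IsR θ' (⊥ : IntermediateField k Ω) (Fin 1)
      (fun x => θ' (x 0) - algebraMap k Ω (κ s)) := fun s =>
    ((isR_theta (0 : Fin 1)).add (isR_const (algebraMap k Ω (κ s))
      ((⊥ : IntermediateField k Ω).algebraMap_mem _)).neg).congr fun x => sub_eq_add_neg _ _
  have hfv : ∀ s, IsR θ' (⊥ : IntermediateField k Ω) (Fin 1)
      (fun x => fv c (θ' (x 0) - algebraMap k Ω (κ s))) := fun s =>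
    (((hsub s).pow d).add (IsR.sum Finset.univ fun b _ => (isR_const (algebraMap k Ω (c b))
      ((⊥ : IntermediateField k Ω).algebraMap_mem _)).mul ((hsub s).pow (b : ℕ))).neg).congr
      fun x => sub_eq_add_neg _ _
  have hG : ∀ s, IsR θ' (⊥ : IntermediateField k Ω) (Fin 1)
      (fun x => ∏ s' ∈ Finset.univ.erase s, fv c (θ' (x 0) - algebraMap k Ω (κ s'))) := fun s =>
    IsR.prod _ fun s' _ => hfv s'
  have hI : ∀ s, IsR θ' (⊥ : IntermediateField k Ω) (Fin 1)
      (fun x => if (ε (x 0)).1 = s then (1 : Ω) else 0) := by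
    intro s
    refine ((hG s).div hp' (hG s)).congr fun x => ?_
    split_ifs with h
    · symm
      apply div_self
      rw [Finset.prod_ne_zero_iff]
      intro s' hs' h0
      refine hκ s s' (Finset.ne_of_mem_erase hs').symm (ε (x 0)).2 _ h0 ?_
      simp only [hθ', h]
      ring
    · symm
      rw [div_eq_zero_iff]
      left
      refine Finset.prod_eq_zero (Finset.mem_erase.2 ⟨h, Finset.mem_univ _⟩) ?_
      have : θ' (x 0) - algebraMap k Ω (κ (ε (x 0)).1) = θ (ε (x 0)).2 := by
        simp only [hθ']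
        ring
      rw [this, hc]
  have h1 : ∀ s, ∃ P : MvPolynomial (Fin 1) (⊥ : IntermediateField k Ω), ∀ x : Fin 1 → Fin d,
      F s (x 0) = MvPolynomial.aeval (fun a => θ (x a)) P := hF
  choose P hP using h1
  refine IsR.congr (IsR.sum Finset.univ fun s _ => (hI s).mul
    (isR_aeval (fun a : Fin 1 => hsub s) (P s))) fun x => ?_
  rw [Finset.sum_eq_single (ε (x 0)).1]
  · rw [if_pos rfl, one_mul]
    have h2 := hP (ε (x 0)).1 (fun _ => (ε (x 0)).2)
    change F (ε (x 0)).1 (ε (x 0)).2 = _ at h2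
    have h3 : (fun _ : Fin 1 => θ (ε (x 0)).2) =
        fun _ : Fin 1 => θ' (x 0) - algebraMap k Ω (κ (ε (x 0)).1) := by
      funext a
      simp only [hθ']
      ring
    change F (ε (x 0)).1 (ε (x 0)).2 = _
    rw [h2, h3]
  · intro s _ hs
    rw [if_neg (Ne.symm hs), zero_mul]
  · intro h
    exact absurd (Finset.mem_univ _) h

private theorem tow_ind {θ : Fin d → Ω} {m r : ℕ} {c : Fin d → Ω} (hT : Tow k θ m c) :
    ∃ B : Set Ω, B.Finite ∧ ∀ (κ : Fin r → k), (∀ s s', s ≠ s' →
      algebraMap k Ω (κ s) - algebraMap k Ω (κ s') ∉ B) → ∀ ε : Fin n ≃ Fin r × Fin d,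
      (∀ F : Fin r → Fin d → Ω, (∀ s, R1 θ (⊥ : IntermediateField k Ω) (F s)) →
        R1 (fun j => algebraMap k Ω (κ (ε j).1) + θ (ε j).2) (⊥ : IntermediateField k Ω)
          (fun j => F (ε j).1 (ε j).2)) →
      Tow k (fun j => algebraMap k Ω (κ (ε j).1) + θ (ε j).2) m
        (fun j => algebraMap k Ω (κ (ε j).1) + c (ε j).2) := by
  induction hT with
  | @top c hc =>
    refine ⟨Set.range fun p : Fin d × Fin d => c p.1 - c p.2, Set.finite_range _, ?_⟩
    intro κ hκ ε _
    apply Tow.top
    intro i j hij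
    have h1 : (ε i).1 = (ε j).1 := by
      by_contra h
      refine hκ _ _ h ⟨((ε j).2, (ε i).2), ?_⟩
      simp only at hij ⊢
      linear_combination -hij
    have h2 : (ε i).2 = (ε j).2 := by
      apply hc
      simp only [h1] at hij
      exact add_left_cancel hij
    exact ε.injective (Prod.ext h1 h2)
  | @step c c' S q hL hq hc hT ih =>
    obtain ⟨B, hB, H⟩ := ih
    refine ⟨B ∪ ((Set.range fun p : Fin d × Fin d => c p.1 - c p.2) ∪
      (Set.range fun p : Fin d × Fin d => c' p.1 - c' p.2)),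
      hB.union ((Set.finite_range _).union (Set.finite_range _)), ?_⟩
    intro κ hκ ε hF
    have hcst : ∀ s : Fin r, R1 θ (⊥ : IntermediateField k Ω) (fun _ => algebraMap k Ω (κ s)) :=
      fun s => isR_const _ ((⊥ : IntermediateField k Ω).algebraMap_mem _)
    have e1 : ∀ i j, algebraMap k Ω (κ (ε i).1) + c (ε i).2 =
        algebraMap k Ω (κ (ε j).1) + c (ε j).2 → (ε i).1 = (ε j).1 ∧ c (ε i).2 = c (ε j).2 := by
      intro i j hij
      have h1 : (ε i).1 = (ε j).1 := by
        by_contra h
        refine hκ _ _ h (Or.inr (Or.inl ⟨((ε j).2, (ε i).2), ?_⟩))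
        simp only
        linear_combination -hij
      exact ⟨h1, add_left_cancel (by simpa only [h1] using hij)⟩
    have e2 : ∀ i j, algebraMap k Ω (κ (ε i).1) + c' (ε i).2 =
        algebraMap k Ω (κ (ε j).1) + c' (ε j).2 → (ε i).1 = (ε j).1 ∧ c' (ε i).2 = c' (ε j).2 := by
      intro i j hij
      have h1 : (ε i).1 = (ε j).1 := by
        by_contra h
        refine hκ _ _ h (Or.inr (Or.inr ⟨((ε j).2, (ε i).2), ?_⟩))
        simp only
        linear_combination -hij
      exact ⟨h1, add_left_cancel (by simpa only [h1] using hij)⟩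
    let S' : Fin n → Fin n := fun j => ε.symm ((ε j).1, S (ε j).2)
    have hS' : ∀ j, ε (S' j) = ((ε j).1, S (ε j).2) := fun j => ε.apply_symm_apply _
    have hit : ∀ (t : ℕ) (j : Fin n), ε (S'^[t] j) = ((ε j).1, S^[t] (ε j).2) := by
      intro t
      induction t with
      | zero => intro j; rfl
      | succ t iht =>
        intro j
        rw [Function.iterate_succ_apply', hS', iht, Function.iterate_succ_apply']
    refine Tow.step (c' := fun j => algebraMap k Ω (κ (ε j).1) + c' (ε j).2) (S := S') (d := q)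
      ⟨?_, ?_, ?_, ?_, ?_, ?_, ?_⟩ hq ?_ (H κ (fun s s' h h1 => hκ s s' h (Or.inl h1)) ε hF)
    · exact hF (fun s e => algebraMap k Ω (κ s) + c' e) fun s => (hcst s).add hL.rat
    · have h1 := hF (fun s e => algebraMap k Ω (κ s) + c' (S e)) fun s => (hcst s).add hL.ratS
      refine IsR.congr h1 fun x => ?_
      simp only [hS']
    · intro i j hij
      obtain ⟨h1, h2⟩ := e2 i j hij
      rw [h1, hL.fine _ _ h2]
    · intro i j hij
      obtain ⟨h1, h2⟩ := e2 i j hij
      change algebraMap k Ω (κ (ε (S' i)).1) + c' (ε (S' i)).2 =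
        algebraMap k Ω (κ (ε (S' j)).1) + c' (ε (S' j)).2
      rw [hS', hS']
      simp only
      rw [h1, hL.shift _ _ h2]
    · intro i
      change algebraMap k Ω (κ (ε (S' i)).1) + c (ε (S' i)).2 = _
      rw [hS']
      simp only
      rw [hL.coarse]
    · intro i
      change algebraMap k Ω (κ (ε (S'^[q] i)).1) + c' (ε (S'^[q] i)).2 = _
      rw [hit]
      simp only
      rw [hL.per]
    · intro i j hij
      obtain ⟨h1, h2⟩ := e1 i j hij
      obtain ⟨t, ht, h3⟩ := hL.trans _ _ h2
      refine ⟨t, ht, ?_⟩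
      change _ = algebraMap k Ω (κ (ε (S'^[t] i)).1) + c' (ε (S'^[t] i)).2
      rw [hit]
      simp only
      rw [h3, h1]
    · exact hF (fun s e => algebraMap k Ω (κ s) + c e) fun s => (hcst s).add hc

theorem tow_blow {θ : Fin d → Ω} (hp : Pol k θ) (hθ : Function.Injective θ) {m r : ℕ}
    (hr : m.Coprime r) (hT : Tow k θ m (fun _ => 0)) :
    ∃ B : Set Ω, B.Finite ∧ ∀ (κ : Fin r → k), (∀ s s', s ≠ s' →
      algebraMap k Ω (κ s) - algebraMap k Ω (κ s') ∉ B) → ∀ ε : Fin n ≃ Fin r × Fin d,
      Pol k (fun j => algebraMap k Ω (κ (ε j).1) + θ (ε j).2) →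
      Function.Injective (fun j => algebraMap k Ω (κ (ε j).1) + θ (ε j).2) ∧
      Tow k (fun j => algebraMap k Ω (κ (ε j).1) + θ (ε j).2) m (fun _ => 0) := by
  obtain ⟨c, hc⟩ := hp
  have hfc : ∀ e, fv c (θ e) = 0 := fun e => by
    rw [fv, hc, sub_self]
  obtain ⟨B, hB, H⟩ := tow_ind (n := n) (r := r) hT
  refine ⟨{0} ∪ (B ∪ (fun p : Ω × Fin d => p.1 - θ p.2) '' ({y : Ω | fv c y = 0} ×ˢ Set.univ)),
    (Set.finite_singleton 0).union (hB.union (((fv_finite c).prod Set.finite_univ).image _)), ?_⟩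
  intro κ hκ ε hp'
  have h1 : ∀ s s', s ≠ s' → ∀ e y, fv c y = 0 →
      algebraMap k Ω (κ s) - algebraMap k Ω (κ s') ≠ y - θ e := by
    intro s s' hs e y hy h
    exact hκ s s' hs (Or.inr (Or.inr ⟨(y, e), ⟨hy, Set.mem_univ _⟩, h.symm⟩))
  have hκi : ∀ s s', algebraMap k Ω (κ s) = algebraMap k Ω (κ s') → s = s' := by
    intro s s' h
    by_contra hs
    exact hκ s s' hs (Or.inl (by rw [h, sub_self]; rfl))
  have hF : ∀ F : Fin r → Fin d → Ω, (∀ s, R1 θ (⊥ : IntermediateField k Ω) (F s)) →
      R1 (fun j => algebraMap k Ω (κ (ε j).1) + θ (ε j).2) (⊥ : IntermediateField k Ω)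
        (fun j => F (ε j).1 (ε j).2) := fun F hF => block hfc ε h1 hp' hF
  refine ⟨?_, ?_⟩
  · intro i j hij
    have h2 : (ε i).1 = (ε j).1 := by
      by_contra h
      refine h1 _ _ h (ε i).2 (θ (ε j).2) (hfc _) ?_
      have h3 : algebraMap k Ω (κ (ε i).1) + θ (ε i).2 =
        algebraMap k Ω (κ (ε j).1) + θ (ε j).2 := hij
      linear_combination h3
    have h3 : (ε i).2 = (ε j).2 := by
      apply hθ
      have h4 : algebraMap k Ω (κ (ε i).1) + θ (ε i).2 =
        algebraMap k Ω (κ (ε j).1) + θ (ε j).2 := hij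
      rw [h2] at h4
      exact add_left_cancel h4
    exact ε.injective (Prod.ext h2 h3)
  · have hT1 := H κ (fun s s' h h' => hκ s s' h (Or.inr (Or.inl h'))) ε hF
    rcases r with _ | r
    · apply Tow.top
      intro i
      exact (ε i).1.elim0
    have hit : ∀ (t : ℕ) (j : Fin n),
        ε ((fun j => ε.symm ((ε j).1 + 1, (ε j).2))^[t] j) = ((ε j).1 + (t : Fin (r + 1)), (ε j).2) := by
      intro t
      induction t with
      | zero => intro j; simp
      | succ t iht =>
        intro j
        rw [Function.iterate_succ_apply', Equiv.apply_symm_apply, iht]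
        simp [add_assoc]
    refine Tow.step (c' := fun j => algebraMap k Ω (κ (ε j).1) + (0 : Ω))
      (S := fun j => ε.symm ((ε j).1 + 1, (ε j).2)) (d := r + 1)
      ⟨?_, ?_, ?_, ?_, ?_, ?_, ?_⟩ hr ?_ hT1
    · exact hF (fun s _ => algebraMap k Ω (κ s) + (0 : Ω)) fun s => isR_const _
        (by rw [add_zero]; exact (⊥ : IntermediateField k Ω).algebraMap_mem _)
    · have h2 := hF (fun s _ => algebraMap k Ω (κ (s + 1)) + (0 : Ω)) fun s => isR_const _
        (by rw [add_zero]; exact (⊥ : IntermediateField k Ω).algebraMap_mem _)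
      refine IsR.congr h2 fun x => ?_
      simp only [Equiv.apply_symm_apply]
    · intro i j _
      rfl
    · intro i j hij
      have h2 : (ε i).1 = (ε j).1 := hκi _ _ (by simpa using hij)
      simp only [Equiv.apply_symm_apply]
      rw [h2]
    · intro i
      rfl
    · intro i
      have h2 := hit (r + 1) i
      rw [h2]
      simp
    · intro i j _
      refine ⟨((ε j).1 - (ε i).1 : Fin (r + 1)).val, Fin.is_lt _, ?_⟩
      have h2 := hit ((ε j).1 - (ε i).1 : Fin (r + 1)).val i
      rw [h2]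
      simp
    · exact isR_const _ (⊥ : IntermediateField k Ω).zero_mem

end Pool.Agent.H20.SX
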