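import Pool.Agent.H78.TT.Mult

/-!
# Coordinates with given roots

Let `X` be an element of the central simple algebra `A` of degree `n` whose powers `X ^ a`, `a < n`,
are independent over `k`, and let `f` be a polynomial over `k` with the `n` distinct roots `θ j` in
`Ω` and `f (X) = 0`. Then there are coordinates of `A` (`Dat`) with the roots `θ`.

`exists_form` gives `ρ`, `b`, `β`. The matrices `ρ (X ^ a)` are independent over `Ω`. If `θ j` were not
an eigenvalue of `ρ X`, then `ρ X - θ j` would be a unit, and `q (ρ X) = 0` for `q = f / (T - θ j)` of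
degree `n - 1`. So there is a left eigenvector for every `j`, they are independent, and
`P * ρ X = diagonal θ * P`. The rest as in `exists_dat` and `exists_dat'`.
-/

open Module Matrix

universe u

namespace Pool.Agent.H20.SX

open Pool.Agent.H72.SB Pool.Agent.H49.Cyc Pool.Agent.H78.TT

variable {k Ω : Type u} [Field k] [Field Ω] [Algebra k Ω] {n : ℕ}

/-- Conjugation with a unit. -/
private def Diag_conj (u : (Matrix (Fin n) (Fin n) Ω)ˣ) :
    Matrix (Fin n) (Fin n) Ω ≃ₐ[Ω] Matrix (Fin n) (Fin n) Ω where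
  toFun Y := u.1 * Y * u⁻¹.1
  invFun Y := u⁻¹.1 * Y * u.1
  left_inv Y := by
    change u⁻¹.1 * (u.1 * Y * u⁻¹.1) * u.1 = Y
    rw [← mul_assoc, ← mul_assoc, Units.inv_mul, one_mul, mul_assoc, Units.inv_mul, mul_one]
  right_inv Y := by
    change u.1 * (u⁻¹.1 * Y * u.1) * u⁻¹.1 = Y
    rw [← mul_assoc, ← mul_assoc, Units.mul_inv, one_mul, mul_assoc, Units.mul_inv, mul_one]
  map_mul' Y Z := by
    have h : u.1 * Y * u⁻¹.1 * (u.1 * Z * u⁻¹.1) = u.1 * Y * (u⁻¹.1 * u.1) * Z * u⁻¹.1 := by
      simp only [mul_assoc]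
    rw [h, Units.inv_mul, mul_one, mul_assoc u.1 Y Z]
  map_add' Y Z := by rw [mul_add, add_mul]
  commutes' r := by
    rw [← Algebra.commutes, mul_assoc, Units.mul_inv, mul_one]

private theorem Diag_range {ι : Type*} [Fintype ι] {A : Type*} [Ring A] [Algebra k A]
    {β : Basis ι Ω (Matrix (Fin n) (Fin n) Ω)} {ρ : A →ₐ[k] Matrix (Fin n) (Fin n) Ω}
    {b : Basis ι k A} (hρ : ∀ i, β i = ρ (b i)) (X : Matrix (Fin n) (Fin n) Ω) :
    RatV β (⊥ : IntermediateField k Ω) X ↔ X ∈ ρ.range := by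
  constructor
  · intro hX
    choose c hc using fun i => IntermediateField.mem_bot.1 (hX i)
    refine ⟨∑ i, c i • b i, ?_⟩
    rw [← β.sum_repr X]
    change ρ (∑ i, c i • b i) = _
    rw [map_sum]
    refine Finset.sum_congr rfl fun i _ => ?_
    rw [map_smul, ← hρ i, ← hc i, algebraMap_smul]
  · rintro ⟨a, rfl⟩
    exact ratV_rho hρ a

private theorem Diag_repr {ι : Type*} [Fintype ι] {A : Type*} [Ring A] [Algebra k A]
    {β : Basis ι Ω (Matrix (Fin n) (Fin n) Ω)} {ρ : A →ₐ[k] Matrix (Fin n) (Fin n) Ω}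
    {b : Basis ι k A} (hρ : ∀ i, β i = ρ (b i)) (a : A) (i : ι) :
    β.repr (ρ a) i = algebraMap k Ω (b.repr a i) := by
  classical
  have h1 : ρ a = ∑ j, algebraMap k Ω (b.repr a j) • β j := by
    conv_lhs => rw [← b.sum_repr a]
    rw [map_sum]
    refine Finset.sum_congr rfl fun j _ => ?_
    rw [map_smul, hρ j, algebraMap_smul]
  rw [h1, Basis.repr_sum_self]

/-- Independent elements of `A` have images independent over `Ω`. -/
theorem linearIndependent_rho {ι κ : Type*} [Fintype ι] {A : Type*} [Ring A] [Algebra k A]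
    {β : Basis ι Ω (Matrix (Fin n) (Fin n) Ω)} {ρ : A →ₐ[k] Matrix (Fin n) (Fin n) Ω}
    {b : Basis ι k A} (hρ : ∀ i, β i = ρ (b i)) {y : κ → A} (hy : LinearIndependent k y) :
    LinearIndependent Ω (fun q => ρ (y q)) := by
  rw [linearIndependent_iff'] at hy ⊢
  intro s c hc q hq
  rw [← Module.forall_dual_apply_eq_zero_iff k (c q)]
  intro φ
  refine hy s (fun q => φ (c q)) ?_ q hq
  apply b.repr.injective
  ext i
  have h1 := congrArg (fun M => β.repr M i) hc
  simp only [map_sum, map_smul, Finsupp.coe_finsetSum, Finset.sum_apply, Finsupp.smul_apply,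
    map_zero, Finsupp.coe_zero, Pi.zero_apply, Diag_repr hρ, smul_eq_mul] at h1 ⊢
  have h2 := congrArg φ h1
  rw [map_sum, map_zero] at h2
  rw [← h2]
  refine Finset.sum_congr rfl fun q _ => ?_
  rw [mul_comm (c q), ← Algebra.smul_def, map_smul, smul_eq_mul, mul_comm]

/-- The matrix `ρ X` is diagonalizable with the eigenvalues `θ j`. -/
theorem exists_diag_of {Y : Matrix (Fin n) (Fin n) Ω} {θ : Fin n → Ω}
    (hθ : Function.Injective θ)
    (hY : Polynomial.aeval Y (∏ j, (Polynomial.X - Polynomial.C (θ j))) = 0)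
    (hi : LinearIndependent Ω (fun a : Fin n => Y ^ (a : ℕ))) :
    ∃ P : Matrix (Fin n) (Fin n) Ω, IsUnit P ∧ P * Y = Matrix.diagonal θ * P := by
  classical
  have hv : ∀ j, ∃ v : Fin n → Ω, v ≠ 0 ∧ v ᵥ* Y = θ j • v := by
    intro j
    set q : Polynomial Ω := ∏ i ∈ Finset.univ.erase j, (Polynomial.X - Polynomial.C (θ i)) with hq
    have hmon : q.Monic := Polynomial.monic_prod_of_monic _ _ fun i _ => Polynomial.monic_X_sub_C _
    have hn : 0 < n := j.pos
    have hdeg : q.natDegree = n - 1 := by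
      rw [hq, Polynomial.natDegree_finsetProd_X_sub_C_eq_card,
        Finset.card_erase_of_mem (Finset.mem_univ j), Finset.card_univ, Fintype.card_fin]
    have hdeg' : q.natDegree < n := by omega
    have hne : Polynomial.aeval Y q ≠ 0 := by
      intro h0
      rw [Polynomial.aeval_eq_sum_range' hdeg', Finset.sum_range] at h0
      have h1 := Fintype.linearIndependent_iff.1 hi (fun a => q.coeff a) h0 ⟨q.natDegree, hdeg'⟩
      rw [Polynomial.coeff_natDegree, hmon.leadingCoeff] at h1
      exact one_ne_zero h1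
    have hmul : Polynomial.aeval Y q * (Y - algebraMap Ω _ (θ j)) = 0 := by
      have h1 : Polynomial.aeval Y (q * (Polynomial.X - Polynomial.C (θ j))) = 0 := by
        rw [hq, Finset.prod_erase_mul _ _ (Finset.mem_univ j)]
        exact hY
      rw [map_mul, map_sub, Polynomial.aeval_X, Polynomial.aeval_C] at h1
      exact h1
    obtain ⟨r, hr⟩ : ∃ r, (Polynomial.aeval Y q) r ≠ 0 := by
      by_contra hcon
      push Not at hcon
      exact hne (by ext a b; rw [hcon a]; rfl)
    refine ⟨(Polynomial.aeval Y q) r, hr, ?_⟩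
    ext b
    have h2 := congrFun (congrFun hmul r) b
    rw [mul_sub, Matrix.sub_apply, Matrix.zero_apply, sub_eq_zero,
      ← Algebra.commutes, Matrix.algebraMap_eq_diagonal, Matrix.diagonal_mul] at h2
    exact h2
  choose v hv0 hv using hv
  refine ⟨Matrix.of v, ?_, ?_⟩
  · rw [← Matrix.linearIndependent_rows_iff_isUnit]
    refine Module.End.eigenvectors_linearIndependent' (Matrix.toLin' Yᵀ) θ hθ _ fun i => ?_
    rw [Module.End.hasEigenvector_iff]
    refine ⟨?_, hv0 i⟩
    rw [Module.End.mem_eigenspace_iff, Matrix.toLin'_apply, Matrix.mulVec_transpose]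
    exact hv i
  · ext i j
    have h1 := congrFun (hv i) j
    rw [Matrix.diagonal_mul]
    exact h1

/-- Coordinates with the roots `θ`. -/
theorem exists_dat_of [Infinite k] [IsAlgClosed Ω] {A : CSA.{u, u} k} (hA : finrank k A = n ^ 2)
    {X : A} {θ : Fin n → Ω} (hθ : Function.Injective θ) {f : Polynomial k}
    (hf : f.map (algebraMap k Ω) = ∏ j, (Polynomial.X - Polynomial.C (θ j)))
    (hX : Polynomial.aeval X f = 0) (hi : LinearIndependent k (fun a : Fin n => X ^ (a : ℕ))) :
    ∃ (v : Fin n → Fin n → Ω) (h : Dat k θ v), Nonempty (A ≃ₐ[k] AA h 1) := by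
  obtain ⟨ρ, b, β, hρ, -⟩ := exists_form (Ω := Ω) A hA
  have hY : Polynomial.aeval (ρ X) (∏ j, (Polynomial.X - Polynomial.C (θ j))) = 0 := by
    rw [← hf, Polynomial.aeval_map_algebraMap, Polynomial.aeval_algHom_apply, hX, map_zero]
  have hi' : LinearIndependent Ω (fun a : Fin n => (ρ X) ^ (a : ℕ)) := by
    have h1 := linearIndependent_rho hρ hi
    simpa only [map_pow] using h1
  obtain ⟨P, hP, hPX⟩ := exists_diag_of hθ hY hi'
  obtain ⟨u, rfl⟩ := hP
  set ρ' : A →ₐ[k] Matrix (Fin n) (Fin n) Ω :=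
    (((Diag_conj u).restrictScalars k).toAlgHom).comp ρ with hρ'
  set β' : Basis (Fin (n ^ 2)) Ω (Matrix (Fin n) (Fin n) Ω) :=
    β.map (Diag_conj u).toLinearEquiv with hβ'
  have h1 : ∀ i, β' i = ρ' (b i) := by
    intro i
    rw [hβ', Basis.map_apply, hρ i]
    rfl
  have hd : RatV β' (⊥ : IntermediateField k Ω) (Matrix.diagonal θ) := by
    have h2 : Matrix.diagonal θ = (Diag_conj u).toLinearEquiv (ρ X) := by
      change Matrix.diagonal θ = u.1 * ρ X * u⁻¹.1
      rw [hPX, mul_assoc, Units.mul_inv, mul_one]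
    intro i
    rw [h2, hβ', Basis.map_repr, LinearEquiv.trans_apply, LinearEquiv.symm_apply_apply]
    exact ratV_rho hρ X i
  have hpl : PolyLine Ω (fun M : Matrix (Fin n) (Fin n) Ω => ∏ i, ∏ j, M i j) :=
    PolyLine.prod _ fun i _ => PolyLine.prod _ fun j _ =>
      polyLine_linear (Matrix.entryLinearMap Ω Ω i j)
  obtain ⟨v, hv, hv0⟩ := hpl.exists_rat (k := k) β' ⟨Matrix.of fun _ _ => 1, by
    simp only [Matrix.of_apply, Finset.prod_const_one]
    exact one_ne_zero⟩
  have hv1 : ∀ i j, v i j ≠ 0 := fun i j =>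
    Finset.prod_ne_zero_iff.1 (Finset.prod_ne_zero_iff.1 hv0 i (Finset.mem_univ i)) j
      (Finset.mem_univ j)
  obtain ⟨h, hh⟩ := dat_of_form (isForm_of_rho h1) hθ hd hv hv1
  refine ⟨fun i j => v i j, h, ?_⟩
  have hn : n ≠ 0 := by
    rintro rfl
    have h0 : 0 < finrank k A := Module.finrank_pos
    rw [hA] at h0
    simp at h0
  have : NeZero n := ⟨hn⟩
  have hinj : Function.Injective ρ' := ρ'.toRingHom.injective
  have hr : ρ'.range = AA h 1 := by
    ext Z
    rw [← Diag_range h1 Z, ← hh Z, mem_AA]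
    exact ratV_bas h
  exact ⟨(AlgEquiv.ofInjective ρ' hinj).trans (Subalgebra.equivOfEq _ _ hr)⟩

end Pool.Agent.H20.SX
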