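import Pool.Agent.H20.SX.Arr
import Pool.Agent.H78.TT.CoreH
import Pool.Agent.H72.SB.Main

/-!
# Function fields, from line maps
-/

open Module Matrix

universe u

namespace Pool.Agent.H20.SX

open Pool.Agent.H72.SB Pool.Agent.H49.Cyc Pool.Agent.H78.TT

variable {k : Type u} [Field k] {n m : ℕ}

/-- `A` has coordinates with a map of lines for the exponent `i`. -/
def HasLine (A : CSA.{u, u} k) (n : ℕ) (i : ℤ) : Prop :=
  ∀ (Ω : Type u) [Field Ω] [Algebra k Ω] [IsAlgClosed Ω], ∃ (θ : Fin n → Ω)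
    (v : Fin n → Fin n → Ω) (h : Dat k θ v), Nonempty (A ≃ₐ[k] AA h 1) ∧ LineMap k θ i

theorem functionField_stepS [Infinite k] {A B : CSA.{u, u} k} (hA : finrank k A = n ^ 2)
    (hB : finrank k B = n ^ 2) {g : ℕ} (hg : 1 ≤ g) (hgn : g < n) {i : ℤ}
    (hL : HasLine A n i) (hig : (g : ℤ) ∣ i - 1)
    (hAB : IsMultiple A i B) {F : Type u} [Field F] [Algebra k F]
    (hF : IsFunctionField A g F) : IsFunctionField B g F := by
  have hn0 : NeZero n := ⟨by omega⟩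
  obtain ⟨Ω, _, _, _, hΩ⟩ := exists_omega k (g * (n - g))
  obtain ⟨θ, v, h, ⟨ε⟩, hLM⟩ := hL Ω
  obtain ⟨ε'⟩ := equiv_AC h ε hAB hB
  have hF1 : IsFunctionField (AC h 1) g F := hF.congr (ε.trans (eqAC h 1).symm)
  obtain ⟨b, hb⟩ := exists_basis_AC h 1
  obtain ⟨b', hb'⟩ := exists_basis_AC h i
  obtain ⟨f⟩ := exists_embedding (hF1.trdeg (finrank_AC h 1)) hΩ
  obtain ⟨W, hW, hFW⟩ := exists_of_isFunctionField (finrank_AC h 1) hb hF1 f
  obtain ⟨W', hW', hWW'⟩ := exists_coreH h hg hgn hW hLM hig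
  have hF2 : IsFunctionField (AC h i) g f.fieldRange :=
    isFunctionField_of (finrank_AC h i) hb' hW' (fun K => (hFW K).trans (hWW' K))
      (by rw [trdeg_fieldRange]; exact hF1.trdeg (finrank_AC h 1))
  exact (hF2.congr_field (AlgEquiv.ofInjectiveField f).symm).congr
    ((eqAC h i).trans ε'.symm)

/-- The case `r = 1` modulo `gcd(m, n)`. -/
theorem common_oneS [Infinite k] {A B : CSA.{u, u} k} (hA : finrank k A = n ^ 2)
    (hB : finrank k B = n ^ 2) (hm : 1 ≤ m) (hmn : m < n) {r : ℕ} (hL : HasLine A n (r : ℤ))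
    (hAB : IsMultiple A (r : ℤ) B) (hg : (Nat.gcd m n : ℤ) ∣ (r : ℤ) - 1) :
    ∃ (F : Type u) (_ : Field F) (_ : Algebra k F), IsFunctionField A m F ∧
      IsFunctionField B m F := by
  have hg0 : 1 ≤ Nat.gcd m n := Nat.gcd_pos_of_pos_left _ hm
  have hgm : Nat.gcd m n ≤ m := Nat.le_of_dvd hm (Nat.gcd_dvd_left m n)
  obtain ⟨F, i1, i2, hF⟩ := exists_functionField A hA (hgm.trans hmn.le)
  have h2 : IsFunctionField B (Nat.gcd m n) F :=
    functionField_stepS hA hB hg0 (hgm.trans_lt hmn) hL hg hAB hF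
  exact ⟨_, _, _, functionField_gcd A hA hm hmn hF, functionField_gcd B hB hm hmn h2⟩

theorem common_S [Infinite k] {A B : CSA.{u, u} k} (hA : finrank k A = n ^ 2)
    (hB : finrank k B = n ^ 2) (hm : 1 ≤ m) (hmn : m < n)
    (hL : ∀ r : ℕ, r.Coprime n → HasLine A n (r : ℤ)) {r : ℕ} (hr : r.Coprime n)
    (hAB : IsMultiple A (r : ℤ) B)
    (hg : (Nat.gcd m n : ℤ) ∣ (r : ℤ) - 1 ∨ (Nat.gcd m n : ℤ) ∣ (r : ℤ) + 1) :
    ∃ (F : Type u) (_ : Field F) (_ : Algebra k F), IsFunctionField A m F ∧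
      IsFunctionField B m F := by
  rcases hg with hg | hg
  · exact common_oneS hA hB hm hmn (hL r hr) hAB hg
  · have hn1 : 1 ≤ n := by omega
    have h2 : IsMultiple A (-(r : ℤ)) (opCSA B) := .inv r B (opCSA B) hAB ⟨AlgEquiv.refl⟩
    have h2' : IsMultiple A (((n - 1) * r : ℕ) : ℤ) (opCSA B) := by
      have h3 := h2.add ((isMultiple_n hA).smul (r : ℤ))
      rwa [show (((n - 1) * r : ℕ) : ℤ) = -(r : ℤ) + (r : ℤ) * (n : ℤ) by
        rw [Nat.cast_mul, Nat.cast_sub hn1]; push_cast; ring]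
    have hB' : finrank k (opCSA B) = n ^ 2 := by
      rw [← hB]
      exact (MulOpposite.opLinearEquiv k).finrank_eq.symm
    have hgn : (Nat.gcd m n : ℤ) ∣ n := Int.natCast_dvd_natCast.2 (Nat.gcd_dvd_right m n)
    have hg' : (Nat.gcd m n : ℤ) ∣ (((n - 1) * r : ℕ) : ℤ) - 1 := by
      have h4 := dvd_sub (hgn.mul_left (r : ℤ)) hg
      rwa [show (((n - 1) * r : ℕ) : ℤ) - 1 = (r : ℤ) * (n : ℤ) - ((r : ℤ) + 1) by
        rw [Nat.cast_mul, Nat.cast_sub hn1]; push_cast; ring]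
    have hr' : ((n - 1) * r).Coprime n := by
      refine Nat.Coprime.mul_left ?_ hr
      have : (n - 1).Coprime (n - 1 + 1) := by simp
      rwa [Nat.sub_add_cancel hn1] at this
    obtain ⟨F, i1, i2, h4, h5⟩ := common_oneS hA hB' hm hmn (hL _ hr') h2' hg'
    exact ⟨F, i1, i2, h4, (op_iff (A := B) (B := opCSA B) hB hm hmn AlgEquiv.refl F).2 h5⟩

/-- All fields `k`. -/
theorem same_iff_S {A B : CSA.{u, u} k} (hA : finrank k A = n ^ 2)
    (hB : finrank k B = n ^ 2) (hm : 1 ≤ m) (hmn : m < n)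
    (hL : Infinite k → ∀ r : ℕ, r.Coprime n → HasLine A n (r : ℤ)) {i j : ℤ}
    (hAB : IsMultiple A i B) (hBA : IsMultiple B j A)
    (hg : (Nat.gcd m n = 1 ∨ Nat.gcd m n = 2 ∨ Nat.gcd m n = 3 ∨ Nat.gcd m n = 4 ∨
      Nat.gcd m n = 6) ∨ (Nat.gcd m n : ℤ) ∣ i - 1 ∨ (Nat.gcd m n : ℤ) ∣ i + 1) :
    (∃ (F : Type u) (_ : Field F) (_ : Algebra k F), IsFunctionField A m F ∧
      IsFunctionField B m F) ∧
    ∀ (F : Type u) [Field F] [Algebra k F], IsFunctionField A m F ↔ IsFunctionField B m F := by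
  rcases finite_or_infinite k with hk | hk
  · obtain ⟨e⟩ := nonempty_algEquiv_of_finite A B (by rw [hA, hB])
    obtain ⟨F, i1, i2, hF⟩ := exists_functionField A hA hmn.le
    exact ⟨⟨F, i1, i2, hF, hF.congr e⟩, fun F _ _ => ⟨fun h => h.congr e, fun h => h.congr e.symm⟩⟩
  · obtain ⟨r, hr, hr1, hr2⟩ := exists_mult hA hAB hBA (Nat.gcd_dvd_right m n) hg
    obtain ⟨F₀, i1, i2, h1, h2⟩ := common_S hA hB hm hmn (hL hk) hr hr1 hr2
    refine ⟨⟨F₀, i1, i2, h1, h2⟩, fun F _ _ => ⟨fun h3 => ?_, fun h3 => ?_⟩⟩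
    · obtain ⟨e⟩ := functionField_unique A hA (by omega) h1 h3
      exact h2.congr_field e
    · obtain ⟨e⟩ := functionField_unique B hB (by omega) h2 h3
      exact h1.congr_field e

end Pool.Agent.H20.SX
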