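import Mathlib

/-!
# An element with given distinct eigenvalues in `M_r(C)`

`C` contains the field `E = k(x)` of degree `d`, `A = M_r(C)`, `n = r d`. The element `X` is the
diagonal matrix with the entries `x + κ s`, `s < r`. Its eigenvalues are `κ s + e x`, `e` an embedding
of `E`. If they are distinct then the powers `X ^ a`, `a < n`, are independent: a polynomial `g` with
`g (X) = 0` has the `n` roots `κ s + e x`.
-/

open Module Matrix

universe u

namespace Pool.Agent.H20.SX

variable {k Ω : Type u} [Field k] [Field Ω] [Algebra k Ω]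

/-- Shifts which avoid finitely many differences: one element after the other. -/
theorem exists_kappa [Infinite k] {B : Set Ω} (hB : B.Finite) (r : ℕ) :
    ∃ κ : Fin r → k, ∀ s s', s ≠ s' → algebraMap k Ω (κ s) - algebraMap k Ω (κ s') ∉ B := by
  have hinj : Function.Injective (algebraMap k Ω) := (algebraMap k Ω).injective
  induction r with
  | zero => exact ⟨Fin.elim0, fun s => s.elim0⟩
  | succ r ih =>
    obtain ⟨κ, hκ⟩ := ih
    let T : Set Ω := ⋃ s : Fin r, ((fun b => b + algebraMap k Ω (κ s)) '' B ∪
      (fun b => algebraMap k Ω (κ s) - b) '' B)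
    have hT : T.Finite := Set.finite_iUnion fun s => (hB.image _).union (hB.image _)
    have hT' : ((algebraMap k Ω) ⁻¹' T).Finite := hT.preimage hinj.injOn
    obtain ⟨c, hc⟩ := hT'.exists_notMem
    have h1 : ∀ s : Fin r, algebraMap k Ω c - algebraMap k Ω (κ s) ∉ B := by
      intro s hs
      apply hc
      refine Set.mem_iUnion.2 ⟨s, Or.inl ⟨_, hs, ?_⟩⟩
      simp
    have h2 : ∀ s : Fin r, algebraMap k Ω (κ s) - algebraMap k Ω c ∉ B := by
      intro s hs
      apply hc
      refine Set.mem_iUnion.2 ⟨s, Or.inr ⟨_, hs, ?_⟩⟩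
      simp
    refine ⟨Fin.snoc κ c, fun s s' hss => ?_⟩
    induction s using Fin.lastCases with
    | last =>
      induction s' using Fin.lastCases with
      | last => exact absurd rfl hss
      | cast s' =>
        rw [Fin.snoc_last, Fin.snoc_castSucc]
        exact h1 s'
    | cast s =>
      induction s' using Fin.lastCases with
      | last =>
        rw [Fin.snoc_last, Fin.snoc_castSucc]
        exact h2 s
      | cast s' =>
        rw [Fin.snoc_castSucc, Fin.snoc_castSucc]
        exact hκ s s' fun h => hss (by rw [h])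

/-- A monic polynomial of degree `n` with `n` distinct roots. -/
theorem eq_prod_of_roots {n : ℕ} {q : Polynomial Ω} (hq : q.Monic) (hd : q.natDegree ≤ n)
    {θ : Fin n → Ω} (hθ : Function.Injective θ) (hr : ∀ j, q.eval (θ j) = 0) :
    q = ∏ j, (Polynomial.X - Polynomial.C (θ j)) := by
  have h1 : (∏ j, (Polynomial.X - Polynomial.C (θ j))) ∣ q := by
    refine Finset.prod_dvd_of_coprime ?_ fun j _ => Polynomial.dvd_iff_isRoot.2 (hr j)
    intro a _ b _ hab
    exact Polynomial.pairwise_coprime_X_sub_C hθ hab
  have h2 : (∏ j, (Polynomial.X - Polynomial.C (θ j))).Monic :=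
    Polynomial.monic_prod_of_monic _ _ fun j _ => Polynomial.monic_X_sub_C _
  refine (Polynomial.eq_of_monic_of_dvd_of_natDegree_le h2 hq h1 ?_)
  rw [Polynomial.natDegree_prod_of_monic _ _ fun j _ => Polynomial.monic_X_sub_C _]
  simpa using hd

theorem aeval_pi' {ι E : Type*} [Field E] [Algebra k E] (y : ι → E) (f : Polynomial k) (s : ι) :
    Polynomial.aeval y f s = Polynomial.aeval (y s) f := by
  have h := Polynomial.aeval_algHom_apply (Pi.evalAlgHom k (fun _ : ι => E) s) y f
  exact h.symm

/-- `f = ∏ s, (minpoly k x).comp (T - κ s)`. -/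
theorem exists_X {E : Type u} [Field E] [Algebra k E] [FiniteDimensional k E] {n r : ℕ}
    (hn : n = r * finrank k E) {A C : CSA.{u, u} k} (e : A ≃ₐ[k] Matrix (Fin r) (Fin r) C)
    (φ : E →ₐ[k] C) {x : E} (hx : IntermediateField.adjoin k {x} = ⊤) (κ : Fin r → k)
    (ε : Fin n ≃ Fin r × (E →ₐ[k] Ω)) {θ : Fin n → Ω} (hθ : Function.Injective θ)
    (hθε : ∀ j, θ j = algebraMap k Ω (κ (ε j).1) + (ε j).2 x) :
    ∃ (X : A) (f : Polynomial k),
      f.map (algebraMap k Ω) = ∏ j, (Polynomial.X - Polynomial.C (θ j)) ∧
      Polynomial.aeval X f = 0 ∧ LinearIndependent k (fun a : Fin n => X ^ (a : ℕ)) := by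
  classical
  have hint : IsIntegral k x := Algebra.IsIntegral.isIntegral x
  set p := minpoly k x with hp
  have hpm : p.Monic := minpoly.monic hint
  have hpd : p.natDegree = finrank k E := by
    rw [hp, ← IntermediateField.adjoin.finrank hint, hx, IntermediateField.finrank_top']
  let y : Fin r → E := fun s => x + algebraMap k E (κ s)
  let f : Polynomial k := ∏ s, p.comp (Polynomial.X - Polynomial.C (κ s))
  have hφ : Function.Injective φ := φ.toRingHom.injective
  let Ψ : (Fin r → E) →ₐ[k] A := (e.symm.toAlgHom.comp (Matrix.diagonalAlgHom k)).comp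
    (AlgHom.pi fun s : Fin r => φ.comp (Pi.evalAlgHom k (fun _ => E) s))
  have hΨ : Function.Injective Ψ := by
    intro a b hab
    have h1 : (Matrix.diagonal fun s => φ (a s)) = Matrix.diagonal fun s => φ (b s) :=
      e.symm.injective hab
    funext s
    exact hφ (congrFun (Matrix.diagonal_injective h1) s)
  refine ⟨Ψ y, f, ?_, ?_, ?_⟩
  · refine eq_prod_of_roots ?_ ?_ hθ ?_
    · refine Polynomial.Monic.map _ (Polynomial.monic_prod_of_monic _ _ fun s _ => ?_)
      exact hpm.comp_X_sub_C _
    · rw [Polynomial.natDegree_map, Polynomial.natDegree_prod_of_monic _ _ fun s _ =>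
        hpm.comp_X_sub_C _]
      simp only [Polynomial.natDegree_comp, Polynomial.natDegree_X_sub_C, mul_one, hpd,
        Finset.sum_const, Finset.card_univ, Fintype.card_fin, smul_eq_mul, hn, le_refl]
    · intro j
      rw [Polynomial.eval_map_algebraMap, map_prod]
      refine Finset.prod_eq_zero (Finset.mem_univ (ε j).1) ?_
      rw [Polynomial.aeval_comp, map_sub, Polynomial.aeval_X, Polynomial.aeval_C, hθε,
        add_sub_cancel_left, Polynomial.aeval_algHom_apply, minpoly.aeval, map_zero]
  · rw [Polynomial.aeval_algHom_apply]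
    have h1 : Polynomial.aeval y f = 0 := by
      funext s
      rw [aeval_pi', map_prod]
      refine Finset.prod_eq_zero (Finset.mem_univ s) ?_
      rw [Polynomial.aeval_comp, map_sub, Polynomial.aeval_X, Polynomial.aeval_C]
      change Polynomial.aeval (x + algebraMap k E (κ s) - algebraMap k E (κ s)) p = 0
      rw [add_sub_cancel_right, minpoly.aeval]
    rw [h1, map_zero]
  · have h1 : LinearIndependent k (fun a : Fin n => y ^ (a : ℕ)) := by
      rw [Fintype.linearIndependent_iff]
      intro c hc a
      let g : Polynomial k := ∑ a : Fin n, Polynomial.C (c a) * Polynomial.X ^ (a : ℕ)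
      have hg : Polynomial.aeval y g = 0 := by
        rw [← hc]
        simp only [g, map_sum, map_mul, Polynomial.aeval_C, map_pow, Polynomial.aeval_X]
        refine Finset.sum_congr rfl fun a _ => ?_
        rw [Algebra.smul_def]
      have hroot : ∀ j, (g.map (algebraMap k Ω)).eval (θ j) = 0 := by
        intro j
        have h2 : Polynomial.aeval (y (ε j).1) g = 0 := by
          rw [← aeval_pi', hg]
          rfl
        have h3 := congrArg (ε j).2 h2
        rw [map_zero, ← Polynomial.aeval_algHom_apply] at h3
        rw [Polynomial.eval_map_algebraMap, hθε, add_comm]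
        have h4 : (ε j).2 (y (ε j).1) = (ε j).2 x + algebraMap k Ω (κ (ε j).1) := by
          change (ε j).2 (x + algebraMap k E (κ (ε j).1)) = _
          rw [map_add, AlgHom.commutes]
        rw [← h4]
        exact h3
      have hgd : (g.map (algebraMap k Ω)).degree < n :=
        lt_of_le_of_lt Polynomial.degree_map_le (Polynomial.degree_sum_fin_lt _)
      have hg0 : g.map (algebraMap k Ω) = 0 := by
        by_contra hne
        have h5 : n ≤ (g.map (algebraMap k Ω)).natDegree := by
          have h6 : Finset.univ.image θ ⊆ (g.map (algebraMap k Ω)).roots.toFinset := by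
            intro z hz
            obtain ⟨j, -, rfl⟩ := Finset.mem_image.1 hz
            rw [Multiset.mem_toFinset, Polynomial.mem_roots hne]
            exact hroot j
          have h7 := Finset.card_le_card h6
          rw [Finset.card_image_of_injective _ hθ, Finset.card_univ, Fintype.card_fin] at h7
          exact h7.trans ((Multiset.toFinset_card_le _).trans (Polynomial.card_roots' _))
        rw [Polynomial.degree_eq_natDegree hne] at hgd
        exact absurd (WithBot.coe_lt_coe.1 hgd) (not_lt.2 h5)
      have hg1 : g = 0 := (Polynomial.map_eq_zero _).1 hg0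
      have h8 : g.coeff (a : ℕ) = c a := by
        simp only [g, Polynomial.finsetSum_coeff, Polynomial.coeff_C_mul, Polynomial.coeff_X_pow]
        rw [Finset.sum_eq_single a]
        · simp
        · intro b _ hb
          rw [if_neg fun h => hb (Fin.ext h.symm), mul_zero]
        · intro h
          exact absurd (Finset.mem_univ a) h
      rw [← h8, hg1, Polynomial.coeff_zero]
    have h2 := h1.map' Ψ.toLinearMap (LinearMap.ker_eq_bot.2 hΨ)
    have h3 : (fun a : Fin n => Ψ y ^ (a : ℕ)) = Ψ.toLinearMap ∘ fun a : Fin n => y ^ (a : ℕ) := by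
      funext a
      exact (map_pow Ψ y _).symm
    rw [h3]
    exact h2

end Pool.Agent.H20.SX
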