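import Pool.Agent.H20.SX.Fin
import Pool.Agent.H20.SX.Xel
import Pool.Agent.H20.SX.Diag
import Pool.Agent.H20.SX.Blow
import Pool.Agent.H72.TW.Fields
import Pool.Agent.H72.TW.Line

/-!
# Algebras split by a tower of cyclic extensions
-/

open Module Matrix

universe u

namespace Pool.Agent.H20.SX

open Pool.Agent.H72.SB Pool.Agent.H49.Cyc Pool.Agent.H78.TT Pool.Agent.H72.TW

/-- The roots of a monic polynomial. -/
theorem pol_of_roots {k Ω : Type*} [Field k] [Field Ω] [Algebra k Ω] {n : ℕ} {θ : Fin n → Ω}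
    {f : Polynomial k} (hf : f.Monic) (hd : f.natDegree = n)
    (hr : ∀ i, Polynomial.aeval (θ i) f = 0) : Pol k θ := by
  refine ⟨fun b => - f.coeff b, fun i => ?_⟩
  have h1 := hr i
  rw [Polynomial.aeval_eq_sum_range, hd, Finset.sum_range_succ, ← hd, hf.coeff_natDegree,
    one_smul, hd, add_comm] at h1
  rw [eq_neg_of_add_eq_zero_left h1, Finset.sum_range, ← Finset.sum_neg_distrib]
  refine Finset.sum_congr rfl fun b _ => ?_
  rw [map_neg, neg_mul, Algebra.smul_def]

/-- A tower of cyclic extensions is separable. -/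
theorem isSeparable_of_tower {k E : Type*} [Field k] [Field E] [Algebra k E]
    (h : IsCyclicTower k E) : Algebra.IsSeparable k E := by
  obtain ⟨r, F, h0, hr, hF⟩ := h
  have key : ∀ j ≤ r, Algebra.IsSeparable k (F j) := by
    intro j
    induction j with
    | zero =>
      intro _
      rw [h0]
      exact Algebra.IsSeparable.of_algHom k k (IntermediateField.botEquiv k E).toAlgHom
    | succ j ih =>
      intro hj
      obtain ⟨hle, hG, -⟩ := hF j (by omega)
      have h1 := ih (by omega)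
      have h2 : Algebra.IsSeparable (F j) (IntermediateField.extendScalars hle) := inferInstance
      have h3 : Algebra.IsSeparable k (IntermediateField.extendScalars hle) :=
        Algebra.IsSeparable.trans k (F j) _
      exact h3
  have h1 := key r le_rfl
  rw [hr] at h1
  exact Algebra.IsSeparable.of_algHom k _ (IntermediateField.topEquiv (F := k) (E := E)).symm.toAlgHom

/-- The polynomial with the roots `κ s + e x`. -/
theorem exists_poly {k E Ω : Type*} [Field k] [Field E] [Algebra k E] [FiniteDimensional k E]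
    [Field Ω] [Algebra k Ω] {x : E} (hx : IntermediateField.adjoin k {x} = ⊤) {r : ℕ}
    (κ : Fin r → k) : ∃ f : Polynomial k, f.Monic ∧ f.natDegree = r * finrank k E ∧
      ∀ (s : Fin r) (e : E →ₐ[k] Ω), Polynomial.aeval (algebraMap k Ω (κ s) + e x) f = 0 := by
  have hint : IsIntegral k x := Algebra.IsIntegral.isIntegral x
  set p := minpoly k x with hp
  have hpm : p.Monic := minpoly.monic hint
  have hpd : p.natDegree = finrank k E := by
    rw [hp, ← IntermediateField.adjoin.finrank hint, hx, IntermediateField.finrank_top']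
  refine ⟨∏ s, p.comp (Polynomial.X - Polynomial.C (κ s)), ?_, ?_, fun s e => ?_⟩
  · exact Polynomial.monic_prod_of_monic _ _ fun s _ => hpm.comp_X_sub_C _
  · rw [Polynomial.natDegree_prod_of_monic _ _ fun s _ => hpm.comp_X_sub_C _]
    simp only [Polynomial.natDegree_comp, Polynomial.natDegree_X_sub_C, mul_one, hpd,
      Finset.sum_const, Finset.card_univ, Fintype.card_fin, smul_eq_mul]
  · rw [map_prod]
    refine Finset.prod_eq_zero (Finset.mem_univ s) ?_
    rw [Polynomial.aeval_comp, map_sub, Polynomial.aeval_X, Polynomial.aeval_C,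
      add_sub_cancel_left, Polynomial.aeval_algHom_apply, minpoly.aeval, map_zero]

variable {k : Type u} [Field k] {n : ℕ}

theorem hasLine_tower [Infinite k] {A C : CSA.{u, u} k} (hA : finrank k A = n ^ 2)
    {E : Type u} [Field E] [Algebra k E] (hC : finrank k C = finrank k E ^ 2)
    (hT : IsCyclicTower k E) (φ : E →ₐ[k] C) {r : ℕ} (e : A ≃ₐ[k] Matrix (Fin r) (Fin r) C)
    {m : ℕ} (hm : 1 ≤ m) (hmn : m.Coprime n) : HasLine A n (m : ℤ) := by
  intro Ω _ _ _
  have hd0 : finrank k E ≠ 0 := ne_zero_of_finrank hC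
  have hfin : FiniteDimensional k E := FiniteDimensional.of_finrank_pos (Nat.pos_of_ne_zero hd0)
  have hsep : Algebra.IsSeparable k E := isSeparable_of_tower hT
  have hn : n = r * finrank k E := by
    have h1 := e.toLinearEquiv.finrank_eq
    rw [Module.finrank_matrix, Fintype.card_fin, hA, hC] at h1
    have h2 : n ^ 2 = (r * finrank k E) ^ 2 := by rw [h1]; ring
    exact Nat.pow_left_injective (n := 2) (by norm_num) h2
  obtain ⟨α, hα⟩ := Field.exists_primitive_element k E
  let d := finrank k E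
  have hcard : Fintype.card (E →ₐ[k] Ω) = d := AlgHom.card k E Ω
  let ε₁ : Fin d ≃ (E →ₐ[k] Ω) := (Fintype.equivFinOfCardEq hcard).symm
  let θ₁ : Fin d → Ω := fun i => ε₁ i α
  have hmr : m.Coprime r := hmn.coprime_dvd_right ⟨_, hn⟩
  have hmd : m.Coprime (finrank k E) := hmn.coprime_dvd_right ⟨r, by rw [hn, mul_comm]⟩
  have hθ₁ : Function.Injective θ₁ := by
    intro i j hij
    apply ε₁.injective
    apply AlgHom.ext_of_adjoin_eq_top (s := {α})
    · rw [← IntermediateField.adjoin_simple_toSubalgebra_of_isAlgebraic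
        (Algebra.IsAlgebraic.isAlgebraic α), hα, IntermediateField.top_toSubalgebra]
    · intro y hy
      rw [Set.mem_singleton_iff.1 hy]
      exact hij
  have hpol₁ : Pol k θ₁ := by
    obtain ⟨f, hf, hfd, hfr⟩ := exists_poly (Ω := Ω) hα (fun _ : Fin 1 => (0 : k))
    refine pol_of_roots hf (by rw [hfd, one_mul]) fun i => ?_
    have := hfr 0 (ε₁ i)
    rwa [map_zero, zero_add] at this
  have hT₁ : Tow k θ₁ m (fun _ => 0) := tow_of_tower hT hα ε₁.bijective hmd
  obtain ⟨B, hB, hblow⟩ := tow_blow (n := n) hpol₁ hθ₁ hmr hT₁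
  obtain ⟨κ, hκ⟩ := exists_kappa (k := k) hB r
  let ε₂ : Fin n ≃ Fin r × Fin d := (finCongr hn).trans finProdFinEquiv.symm
  let ε : Fin n ≃ Fin r × (E →ₐ[k] Ω) := ε₂.trans ((Equiv.refl _).prodCongr ε₁)
  have hpol : Pol k (fun j => algebraMap k Ω (κ (ε₂ j).1) + θ₁ (ε₂ j).2) := by
    obtain ⟨f, hf, hfd, hfr⟩ := exists_poly (Ω := Ω) hα κ
    exact pol_of_roots hf (by rw [hfd, hn]) fun j => hfr (ε₂ j).1 (ε₁ (ε₂ j).2)
  obtain ⟨hθ, hTow⟩ := hblow κ hκ ε₂ hpol
  obtain ⟨X, f, hf, hX, hi⟩ := exists_X hn e φ hα κ ε hθ fun j => rfl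
  obtain ⟨v, h, hiso⟩ := exists_dat_of hA hθ hf hX hi
  exact ⟨_, v, h, hiso, lineMap_of_tow h.pol h.inj hm hTow⟩

theorem same_iff_tower {A B C : CSA.{u, u} k} {m : ℕ} (hA : finrank k A = n ^ 2)
    (hB : finrank k B = n ^ 2) {E : Type u} [Field E] [Algebra k E]
    (hC : finrank k C = finrank k E ^ 2) (hT : IsCyclicTower k E) (φ : E →ₐ[k] C) {r : ℕ}
    (e : A ≃ₐ[k] Matrix (Fin r) (Fin r) C) {i j : ℤ} (hAB : IsMultiple A i B)
    (hBA : IsMultiple B j A) (hm : 1 ≤ m) (hmn : m < n)
    (hg : (Nat.gcd m n = 1 ∨ Nat.gcd m n = 2 ∨ Nat.gcd m n = 3 ∨ Nat.gcd m n = 4 ∨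
      Nat.gcd m n = 6) ∨ (Nat.gcd m n : ℤ) ∣ i - 1 ∨ (Nat.gcd m n : ℤ) ∣ i + 1) :
    (∃ (F : Type u) (_ : Field F) (_ : Algebra k F), IsFunctionField A m F ∧
      IsFunctionField B m F) ∧
    ∀ (F : Type u) [Field F] [Algebra k F], IsFunctionField A m F ↔ IsFunctionField B m F := by
  refine same_iff_S hA hB hm hmn (fun _ s hs => ?_) hAB hBA hg
  refine hasLine_tower hA hC hT φ e ?_ hs
  rcases Nat.eq_zero_or_pos s with rfl | h
  · rw [Nat.coprime_zero_left] at hs
    omega
  · exact h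

end Pool.Agent.H20.SX
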