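import Mathlib

/-!
# Chains of cyclic extensions

One step of a chain: `L ≤ L'` are intermediate fields of `E / k`, `L' / L` is a cyclic Galois
extension. With a generator `σ` of the Galois group and `d` its order: two embeddings of `E` in an
algebraically closed field agree on `L` if and only if on `L'` they differ by a power of `σ`.
-/

open Module

universe u

namespace Pool.Agent.H20.SX

variable {k E Ω : Type u} [Field k] [Field E] [Algebra k E] [Field Ω] [Algebra k Ω]

/-- `E` is obtained from `k` by a finite chain of cyclic Galois extensions. -/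
def IsCyclicTower (k E : Type u) [Field k] [Field E] [Algebra k E] : Prop :=
  ∃ (r : ℕ) (K : ℕ → IntermediateField k E), K 0 = ⊥ ∧ K r = ⊤ ∧
    ∀ j < r, ∃ h : K j ≤ K (j + 1), IsGalois (K j) (IntermediateField.extendScalars h) ∧
      IsCyclic (IntermediateField.extendScalars h ≃ₐ[K j] IntermediateField.extendScalars h)

/-- The generator of the Galois group of one step. -/
theorem exists_gen [FiniteDimensional k E] {L L' : IntermediateField k E} (h : L ≤ L')
    (hG : IsGalois L (IntermediateField.extendScalars h))
    (hC : IsCyclic (IntermediateField.extendScalars h ≃ₐ[L] IntermediateField.extendScalars h)) :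
    ∃ (σ : L' →ₐ[k] L') (d : ℕ), 0 < d ∧ d ∣ finrank k E ∧ (∀ x, (σ ^ d) x = x) ∧
      ∀ e l : E →ₐ[k] Ω, (∀ x ∈ L, e x = l x) ↔ ∃ s : ℕ, ∀ x : L', l x = e ((σ ^ s) x) := by
  sorry

/-- The shift: for every embedding `e` there is one which on `L'` is `e ∘ σ`. -/
theorem exists_shift_emb [IsAlgClosed Ω] [FiniteDimensional k E] {L' : IntermediateField k E}
    (σ : L' →ₐ[k] L') (e : E →ₐ[k] Ω) : ∃ l : E →ₐ[k] Ω, ∀ x : L', l x = e (σ x) := by
  sorry

theorem IsCyclicTower.isSeparable [FiniteDimensional k E] (h : IsCyclicTower k E) :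
    Algebra.IsSeparable k E := by
  sorry

end Pool.Agent.H20.SX
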