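import Mathlib

/-!
# The line map, abstract form

`G` is a finite solvable group acting on a commutative group `M`, `R K`, `K ∈ P`, are subgroups of `M`
with Hilbert's Theorem 90 for all subgroups of `G`. For `a : G → M` which is a cocycle modulo `R K₀`
and `i` prime to the order of `G`, there is `t` in `M` with, for all `K ≥ K₀`:
all `a g` are in `R K` if and only if all `a g ^ i * (g t / t)` are in `R K`.
-/

namespace Pool.Agent.H20.SX

variable {G M P : Type*} [Group G] [CommGroup M] [CompleteLattice P]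

/-- A system of subgroups with Hilbert's Theorem 90. -/
structure Sys (ρ : G →* MulAut M) (R : P → Subgroup M) : Prop where
  mono : ∀ {K K' : P}, K ≤ K' → R K ≤ R K'
  stab : ∀ (K : P) (g : G) (m : M), m ∈ R K → ρ g m ∈ R K
  fod : ∀ m : M, ∃ K₁ : P, ∀ K : P, m ∈ R K ↔ K₁ ≤ K
  h90 : ∀ (H : Subgroup G) (K : P) (c : G → M), (∀ h ∈ H, c h ∈ R K) →
    (∀ h ∈ H, ∀ h' ∈ H, c (h * h') = c h * ρ h (c h')) →
    ∃ r ∈ R K, ∀ h ∈ H, c h = ρ h r / r

/-- `a` is a cocycle on `H` modulo `R`. -/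
def CocMod (ρ : G →* MulAut M) (R : Subgroup M) (H : Subgroup G) (a : G → M) : Prop :=
  ∀ g ∈ H, ∀ g' ∈ H, a g * ρ g (a g') / a (g * g') ∈ R

variable {ρ : G →* MulAut M} {R : P → Subgroup M}

/-- The elements `g` of `H` with `a g ∈ R K`. -/
def sub (S : Sys ρ R) {H : Subgroup G} {K : P} {a : G → M} (ha : CocMod ρ (R K) H a) :
    Subgroup G where
  carrier := {g | g ∈ H ∧ a g ∈ R K}
  one_mem' := by
    refine ⟨H.one_mem, ?_⟩
    have h1 := ha 1 H.one_mem 1 H.one_mem
    rw [map_one, mul_one, MulAut.one_apply, mul_div_assoc, div_self', mul_one] at h1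
    exact h1
  mul_mem' := by
    rintro g g' ⟨hg, hga⟩ ⟨hg', hga'⟩
    refine ⟨H.mul_mem hg hg', ?_⟩
    have h1 := ha g hg g' hg'
    have h2 := (R K).mul_mem hga (S.stab K g _ hga')
    have h3 := (R K).div_mem h2 h1
    rwa [div_div_cancel] at h3
  inv_mem' := by
    rintro g ⟨hg, hga⟩
    refine ⟨H.inv_mem hg, ?_⟩
    have h0 := ha 1 H.one_mem 1 H.one_mem
    rw [map_one, mul_one, MulAut.one_apply, mul_div_assoc, div_self', mul_one] at h0
    have h1 := ha g⁻¹ (H.inv_mem hg) g hg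
    rw [inv_mul_cancel] at h1
    have h2 := (R K).mul_mem h1 h0
    rw [div_mul_cancel] at h2
    have h3 := (R K).div_mem h2 (S.stab K g⁻¹ _ hga)
    rwa [mul_div_cancel_right] at h3

theorem mem_sub (S : Sys ρ R) {H : Subgroup G} {K : P} {a : G → M} (ha : CocMod ρ (R K) H a)
    {g : G} : g ∈ sub S ha ↔ g ∈ H ∧ a g ∈ R K := Iff.rfl

theorem CocMod.mono (S : Sys ρ R) {H : Subgroup G} {K K' : P} (hK : K ≤ K') {a : G → M}
    (ha : CocMod ρ (R K) H a) : CocMod ρ (R K') H a :=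
  fun g hg g' hg' => S.mono hK (ha g hg g' hg')

theorem CocMod.le {R : Subgroup M} {H N : Subgroup G} (hN : N ≤ H) {a : G → M}
    (ha : CocMod ρ R H a) : CocMod ρ R N a :=
  fun g hg g' hg' => ha g (hN hg) g' (hN hg')

/-- The property of the subgroup `H`. -/
def Prop' (ρ : G →* MulAut M) (R : P → Subgroup M) (i : ℕ) (H : Subgroup G) : Prop :=
  ∀ (K₀ : P) (a : G → M), CocMod ρ (R K₀) H a → ∃ t : M, ∀ K : P, K₀ ≤ K →
    ((∀ h ∈ H, a h ∈ R K) ↔ ∀ h ∈ H, a h ^ i * (ρ h t / t) ∈ R K)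

theorem prop_bot (S : Sys ρ R) (i : ℕ) : Prop' ρ R i ⊥ := by
  intro K₀ a ha
  refine ⟨1, fun K hK => ?_⟩
  have h1 := (sub S (ha.mono S hK)).one_mem
  rw [mem_sub] at h1
  constructor
  · intro h h' hh'
    rw [map_one, div_self', mul_one]
    exact (R K).pow_mem (h h' hh') i
  · intro _ h' hh'
    rw [Subgroup.mem_bot.1 hh']
    exact h1.2

theorem aux1 (x y z w v : M) : x / y = z * x / w / z * (v / (y * v / w)) := by
  have h : ∀ x y z w v : Additive M, x - y = z + x - w - z + (v - (y + v - w)) := by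
    intros
    abel
  exact h (Additive.ofMul x) (Additive.ofMul y) (Additive.ofMul z) (Additive.ofMul w)
    (Additive.ofMul v)

theorem aux2 (r t r' : M) : r * (t / r') / t = r / r' := by
  have h : ∀ r t r' : Additive M, r + (t - r') - t = r - r' := by
    intros
    abel
  exact h (Additive.ofMul r) (Additive.ofMul t) (Additive.ofMul r')

/-- Two elements with the same coboundary modulo `R`: cancel. -/
theorem cob_div (t u : M) (g : G) : ρ g (t / u) / (t / u) = ρ g t / t / (ρ g u / u) := by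
  rw [map_div]
  exact div_div_div_comm _ _ _ _

theorem cob_mul (t u : M) (g : G) : ρ g (t * u) / (t * u) = ρ g t / t * (ρ g u / u) := by
  rw [map_mul]
  exact mul_div_mul_comm _ _ _ _

theorem cob_coc (t : M) (g g' : G) : ρ (g * g') t / t = ρ g t / t * ρ g (ρ g' t / t) := by
  rw [map_mul, MulAut.mul_apply, map_div, mul_comm, div_mul_div_cancel]

/-- The tower step. -/
theorem prop_step (S : Sys ρ R) {i : ℕ} {H N : Subgroup G} (hNH : N ≤ H) {s : G} (hs : s ∈ H)
    (hnorm : ∀ h ∈ N, ∀ g ∈ H, g⁻¹ * h * g ∈ N)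
    (hi : s ∈ Subgroup.zpowers (s ^ i)) (hgen : H ≤ N ⊔ Subgroup.zpowers s)
    (hN : Prop' ρ R i N) : Prop' ρ R i H := by
  classical
  intro K₀ a ha
  obtain ⟨t₁, ht₁⟩ := hN K₀ a (ha.le hNH)
  -- the field of definition of the restriction to `N`
  obtain ⟨K₁, hK₀₁, hK₁⟩ : ∃ K₁ : P, K₀ ≤ K₁ ∧ ∀ K, K₀ ≤ K → ((∀ h ∈ N, a h ∈ R K) ↔ K₁ ≤ K) := by
    choose κ hκ using fun h : G => S.fod (a h)
    refine ⟨K₀ ⊔ ⨆ h ∈ N, κ h, le_sup_left, fun K hK => ?_⟩
    rw [sup_le_iff, iSup₂_le_iff]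
    constructor
    · intro h
      exact ⟨hK, fun g hg => (hκ g K).1 (h g hg)⟩
    · intro h g hg
      exact (hκ g K).2 (h.2 g hg)
  have haN : ∀ h ∈ N, a h ∈ R K₁ := (hK₁ K₁ hK₀₁).2 le_rfl
  have hspow : ∀ l : ℕ, s ^ l ∈ H := fun l => H.pow_mem hs l
  -- Hilbert 90 for `t₁`
  obtain ⟨r, hr, hrt⟩ := S.h90 N K₁ (fun h => ρ h t₁ / t₁) (fun h hh => by
    have h1 := (ht₁ K₁ hK₀₁).1 haN h hh
    have h2 := (R K₁).div_mem h1 ((R K₁).pow_mem (haN h hh) i)
    rwa [mul_div_cancel_left] at h2) (fun h _ h' _ => cob_coc t₁ h h')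
  -- the norm
  set t₂ : M := ∏ l ∈ Finset.range i, a (s ^ l) with ht₂
  have hcob : ∀ h ∈ N, ∀ g ∈ H, ρ h (a g) / a g ∈ R K₁ := by
    intro h hh g hg
    have h1 := S.mono hK₀₁ (ha h (hNH hh) g hg)
    have h2 : g⁻¹ * h * g ∈ N := hnorm h hh g hg
    have h3 := S.mono hK₀₁ (ha g hg (g⁻¹ * h * g) (hNH h2))
    have h4 : g * (g⁻¹ * h * g) = h * g := by group
    rw [h4] at h3
    have h5 := S.stab K₁ g _ (haN _ h2)
    -- `ρ h (a g) / a g = (a h * ρ h (a g) / a (h g)) / a h * (a (h g) / a g)`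
    have h6 := (R K₁).mul_mem ((R K₁).div_mem h1 (haN h hh))
      ((R K₁).div_mem h5 h3)
    rw [aux1 (ρ h (a g)) (a g) (a h) (a (h * g)) (ρ g (a (g⁻¹ * h * g)))]
    exact h6
  obtain ⟨r₂, hr₂, hrt₂⟩ := S.h90 N K₁ (fun h => ρ h t₂ / t₂) (fun h hh => by
    rw [ht₂, map_prod, ← Finset.prod_div_distrib]
    exact (R K₁).prod_mem fun l _ => hcob h hh _ (hspow l)) (fun h _ h' _ => cob_coc t₂ h h')
  refine ⟨r * (t₂ / r₂), fun K hK => ?_⟩
  set t := r * (t₂ / r₂) with ht
  have htN : ∀ h ∈ N, ρ h t / t = ρ h t₁ / t₁ := by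
    intro h hh
    rw [ht, cob_mul, cob_div]
    have h1 : ρ h t₁ / t₁ = ρ h r / r := hrt h hh
    have h2 : ρ h t₂ / t₂ = ρ h r₂ / r₂ := hrt₂ h hh
    rw [h1, h2, div_self', mul_one]
  -- in both cases `K₁ ≤ K`
  have key : K₁ ≤ K → ((∀ h ∈ H, a h ∈ R K) ↔ ∀ h ∈ H, a h ^ i * (ρ h t / t) ∈ R K) := by
    intro hK₁K
    have haK : CocMod ρ (R K) H a := ha.mono S hK
    have htt : ∀ h, ρ h t / t / (ρ h t₂ / t₂) ∈ R K := by
      intro h
      have h1 : t / t₂ ∈ R K := by
        have h2 : t / t₂ = r / r₂ := aux2 r t₂ r₂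
        rw [h2]
        exact S.mono hK₁K ((R K₁).div_mem hr hr₂)
      rw [← cob_div]
      exact (R K).div_mem (S.stab K h _ h1) h1
    have hiff : ∀ h, a h ^ i * (ρ h t / t) ∈ R K ↔ a h ^ i * (ρ h t₂ / t₂) ∈ R K := by
      intro h
      have h1 : a h ^ i * (ρ h t / t) =
          a h ^ i * (ρ h t₂ / t₂) * (ρ h t / t / (ρ h t₂ / t₂)) := by
        rw [mul_assoc, mul_div_cancel]
      rw [h1]
      exact (R K).mul_mem_cancel_right (htt h)
    constructor
    · intro h h' hh'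
      rw [hiff]
      have h2 : t₂ ∈ R K := (R K).prod_mem fun l _ => h _ (hspow l)
      exact (R K).mul_mem ((R K).pow_mem (h h' hh') i)
        ((R K).div_mem (S.stab K h' _ h2) h2)
    · intro h
      -- `a (s ^ i) ∈ R K`
      have h1 : a s ^ i * (ρ s t₂ / t₂) ∈ R K := (hiff s).1 (h s hs)
      have h2 : ∀ l, a s * ρ s (a (s ^ l)) / a (s ^ (l + 1)) ∈ R K := fun l => by
        have := haK s hs (s ^ l) (hspow l)
        rwa [← pow_succ'] at this
      have h3 : ∀ j : ℕ, (∏ l ∈ Finset.range j, a (s ^ (l + 1)) / a (s ^ l)) =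
          a (s ^ j) / a (s ^ 0) := by
        intro j
        exact Finset.prod_range_div (fun l => a (s ^ l)) j
      have h4 : a s ^ i * (ρ s t₂ / t₂) = (∏ l ∈ Finset.range i,
          a s * ρ s (a (s ^ l)) / a (s ^ (l + 1))) * (a (s ^ i) / a (s ^ 0)) := by
        rw [← h3, ← Finset.prod_mul_distrib, ht₂, map_prod, ← Finset.prod_div_distrib]
        have h5 : a s ^ i = ∏ l ∈ Finset.range i, a s := by
          rw [Finset.prod_const, Finset.card_range]
        rw [h5, ← Finset.prod_mul_distrib]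
        refine Finset.prod_congr rfl fun l _ => ?_
        rw [div_mul_div_cancel, mul_div_assoc]
      have h6 : a (s ^ i) / a (s ^ 0) ∈ R K := by
        rw [h4] at h1
        exact ((R K).mul_mem_cancel_left ((R K).prod_mem fun l _ => h2 l)).1 h1
      have h7 : a (s ^ 0) ∈ R K := by
        rw [pow_zero]
        exact ((mem_sub S haK).1 (sub S haK).one_mem).2
      have h8 : a (s ^ i) ∈ R K := by
        have := (R K).mul_mem h6 h7
        rwa [div_mul_cancel] at this
      have h9 : s ^ i ∈ sub S haK := ⟨hspow i, h8⟩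
      have h10 : s ∈ sub S haK := (Subgroup.zpowers_le.2 h9) hi
      have h11 : N ≤ sub S haK := fun g hg => ⟨hNH hg, S.mono hK₁K (haN g hg)⟩
      have h12 : H ≤ sub S haK := hgen.trans (sup_le h11 (Subgroup.zpowers_le.2 h10))
      exact fun g hg => ((mem_sub S haK).1 (h12 hg)).2
  constructor
  · intro h
    exact (key ((hK₁ K hK).1 fun g hg => h g (hNH hg))).1 h
  · intro h
    refine (key ((hK₁ K hK).1 ((ht₁ K hK).2 fun g hg => ?_))).2 h
    have := h g (hNH hg)
    rwa [htN g hg] at this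

open scoped commutatorElement in
/-- Every solvable subgroup other than `⊥` has a normal subgroup with cyclic quotient. -/
theorem exists_normal [Finite G] (H : Subgroup G) (hs : Group.IsSolvable H) (hH : H ≠ ⊥) :
    ∃ N : Subgroup G, N < H ∧ (∀ h ∈ N, ∀ g ∈ H, g⁻¹ * h * g ∈ N) ∧
      ∃ s ∈ H, H ≤ N ⊔ Subgroup.zpowers s := by
  have : Nontrivial H := (Subgroup.nontrivial_iff_ne_bot H).2 hH
  have hc : commutator H < ⊤ := Group.IsSolvable.commutator_lt_top_of_nontrivial H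
  obtain ⟨N', hN', hle⟩ := (eq_top_or_exists_le_coatom (commutator H)).resolve_left hc.ne
  have hn : N'.Normal := by
    refine ⟨fun n hn g => ?_⟩
    have h1 : ⁅g, n⁆ ∈ N' := by
      apply hle
      rw [commutator_def]
      exact Subgroup.commutator_mem_commutator (Subgroup.mem_top g) (Subgroup.mem_top n)
    have h2 := N'.mul_mem h1 hn
    rwa [commutatorElement_def, inv_mul_cancel_right] at h2
  obtain ⟨x, -, hx⟩ := SetLike.exists_of_lt (lt_top_iff_ne_top.2 hN'.1)
  have hx1 : N' ⊔ Subgroup.zpowers x = ⊤ := by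
    refine hN'.2 _ (lt_of_le_of_ne le_sup_left ?_)
    intro h
    apply hx
    rw [h]
    exact Subgroup.mem_sup_right (Subgroup.mem_zpowers x)
  refine ⟨N'.map H.subtype, ?_, ?_, x, x.2, ?_⟩
  · refine lt_of_le_of_ne (Subgroup.map_subtype_le _) ?_
    intro h
    apply hN'.1
    rw [← Subgroup.map_injective H.subtype_injective |>.eq_iff, h, ← MonoidHom.range_eq_map,
      Subgroup.range_subtype]
  · rintro _ ⟨y, hy, rfl⟩ g hg
    refine ⟨⟨g, hg⟩⁻¹ * y * ⟨g, hg⟩, ?_, rfl⟩
    have := hn.conj_mem y hy (⟨g, hg⟩⁻¹)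
    rwa [inv_inv] at this
  · have h1 : (N' ⊔ Subgroup.zpowers x).map H.subtype = H := by
      rw [hx1, ← MonoidHom.range_eq_map, Subgroup.range_subtype]
    rw [Subgroup.map_sup, MonoidHom.map_zpowers] at h1
    exact h1.ge

theorem prop_all [Finite G] (S : Sys ρ R) {i : ℕ} (hi : Nat.Coprime i (Nat.card G))
    (H : Subgroup G) (hs : Group.IsSolvable H) : Prop' ρ R i H := by
  induction hcard : Nat.card H using Nat.strong_induction_on generalizing H with
  | _ c ih =>
    by_cases hH : H = ⊥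
    · rw [hH]
      exact prop_bot S i
    · obtain ⟨N, hNH, hnorm, s, hsH, hgen⟩ := exists_normal H hs hH
      have hlt : Nat.card N < c := by
        rw [← hcard]
        exact Set.Finite.card_lt_card (Set.toFinite (H : Set G)) hNH
      have hNs : Group.IsSolvable N := by
        exact Group.isSolvable_of_isSolvable_injective (Subgroup.inclusion_injective hNH.le)
      refine prop_step S hNH.le hsH hnorm ?_ hgen (ih _ hlt N hNs rfl)
      have hco : i.Coprime (orderOf s) := Nat.Coprime.coprime_dvd_right (orderOf_dvd_natCard s) hi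
      obtain ⟨m, hm⟩ := exists_pow_eq_self_of_coprime hco
      exact ⟨(m : ℤ), by simpa using hm⟩

end Pool.Agent.H20.SX
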